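import Pool.Agent.R25.Dw.Eval

/-!
# MP_668c10_co: both questions, descent-Wilf equivalences of shaded patterns

`\widehat{1243}` and `\widehat{3412}` are des-Wilf equivalent (Q1), and so are
`\widehat{1342}` and `\widehat{2413}` (Q2).
-/

namespace Pool.Agent.Results.MP_668c10_co.DesWilf

open Finset Pool.Agent.R25.Dw

/-- `s` contains the shaded pattern `p` (first two entries of the occurrence are adjacent). -/
def Contains (p : Fin 4 → ℕ) {n : ℕ} (s : Equiv.Perm (Fin n)) : Prop :=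
  ∃ i : Fin 4 → Fin n, StrictMono i ∧ (i 1 : ℕ) = (i 0 : ℕ) + 1 ∧
    ∀ a b : Fin 4, s (i a) < s (i b) ↔ p a < p b

/-- number of descents -/
def des {n : ℕ} (s : Equiv.Perm (Fin n)) : ℕ :=
  (univ.filter (fun i : Fin n => ∃ h : (i : ℕ) + 1 < n, s ⟨(i : ℕ) + 1, h⟩ < s i)).card

open Classical in
/-- the descent polynomial of the avoiders of `p` of length `n` -/
noncomputable def F (p : Fin 4 → ℕ) (n : ℕ) : Polynomial ℤ :=
  ∑ s ∈ univ.filter (fun s : Equiv.Perm (Fin n) => ¬ Contains p s),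
    (Polynomial.X : Polynomial ℤ) ^ des s

lemma des_eq {n : ℕ} (s : Equiv.Perm (Fin n)) : des s = dd n (vf s) := by
  unfold des dd cnt
  rw [Finset.card_filter, Finset.sum_range]
  refine Finset.sum_congr rfl (fun i _ => ?_)
  have hiff : (∃ h : (i : ℕ) + 1 < n, s ⟨(i : ℕ) + 1, h⟩ < s i) ↔
      ((i : ℕ) + 1 < n ∧ vf s ((i : ℕ) + 1) < vf s i) := by
    constructor
    · rintro ⟨h, h'⟩
      refine ⟨h, ?_⟩
      simp only [vf, h, i.isLt, dif_pos]
      exact h'
    · rintro ⟨h, h'⟩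
      refine ⟨h, ?_⟩
      simp only [vf, h, i.isLt, dif_pos] at h'
      exact h'
  by_cases hh : (∃ h : (i : ℕ) + 1 < n, s ⟨(i : ℕ) + 1, h⟩ < s i)
  · rw [if_pos hh, if_pos (hiff.mp hh)]
  · rw [if_neg hh, if_neg (fun h => hh (hiff.mpr h))]

/-- complement of the values -/
def cmp {n : ℕ} (s : Equiv.Perm (Fin n)) : Equiv.Perm (Fin n) := s.trans Fin.revPerm

lemma cmp_apply {n : ℕ} (s : Equiv.Perm (Fin n)) (i : Fin n) : cmp s i = Fin.rev (s i) := rfl

lemma cmp_lt {n : ℕ} (s : Equiv.Perm (Fin n)) (i j : Fin n) :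
    cmp s i < cmp s j ↔ s j < s i := by
  rw [cmp_apply, cmp_apply, Fin.rev_lt_rev]

lemma des_cmp {n : ℕ} (s : Equiv.Perm (Fin n)) : des (cmp s) = aa n (vf s) := by
  unfold des aa cnt
  rw [Finset.card_filter, Finset.sum_range]
  refine Finset.sum_congr rfl (fun i _ => ?_)
  have hiff : (∃ h : (i : ℕ) + 1 < n, cmp s ⟨(i : ℕ) + 1, h⟩ < cmp s i) ↔
      ((i : ℕ) + 1 < n ∧ vf s i < vf s ((i : ℕ) + 1)) := by
    constructor
    · rintro ⟨h, h'⟩
      refine ⟨h, ?_⟩
      rw [cmp_lt] at h'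
      simp only [vf, h, i.isLt, dif_pos]
      exact h'
    · rintro ⟨h, h'⟩
      refine ⟨h, ?_⟩
      rw [cmp_lt]
      simp only [vf, h, i.isLt, dif_pos] at h'
      exact h'
  by_cases hh : (∃ h : (i : ℕ) + 1 < n, cmp s ⟨(i : ℕ) + 1, h⟩ < cmp s i)
  · rw [if_pos hh, if_pos (hiff.mp hh)]
  · rw [if_neg hh, if_neg (fun h => hh (hiff.mpr h))]

lemma contains_cmp {p p' : Fin 4 → ℕ} (h : ∀ a b, p a < p b ↔ p' b < p' a) {n : ℕ}
    (s : Equiv.Perm (Fin n)) : Contains p (cmp s) ↔ Contains p' s := by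
  unfold Contains
  refine exists_congr (fun i => and_congr Iff.rfl (and_congr Iff.rfl ?_))
  constructor
  · intro h1 a b
    have := h1 b a
    rw [cmp_lt] at this
    rw [this, h]
  · intro h1 a b
    rw [cmp_lt, h1 b a, h]

/-- rewriting containment with natural number positions -/
lemma contains_iff (p : Fin 4 → ℕ) {n : ℕ} (s : Equiv.Perm (Fin n)) :
    Contains p s ↔ ∃ i j k : ℕ, i + 1 < j ∧ j < k ∧ k < n ∧
      ∀ a b : Fin 4, (![vf s i, vf s (i + 1), vf s j, vf s k] a <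
        ![vf s i, vf s (i + 1), vf s j, vf s k] b ↔ p a < p b) := by
  constructor
  · rintro ⟨i, hi, h1, h2⟩
    have h12 : i 1 < i 2 := hi (by decide)
    have h23 : i 2 < i 3 := hi (by decide)
    refine ⟨i 0, i 2, i 3, ?_, ?_, (i 3).isLt, ?_⟩
    · rw [← h1]; exact h12
    · exact h23
    · have e : ∀ a : Fin 4, ![vf s (i 0), vf s ((i 0 : ℕ) + 1), vf s (i 2), vf s (i 3)] a
          = (s (i a) : ℕ) := by
        intro a
        rw [← h1]
        fin_cases a <;> simp [vf]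
      intro a b
      rw [e a, e b, ← h2 a b]
      rfl
  · rintro ⟨i, j, k, h1, h2, h3, h4⟩
    refine ⟨![⟨i, by omega⟩, ⟨i + 1, by omega⟩, ⟨j, by omega⟩, ⟨k, h3⟩], ?_, ?_, ?_⟩
    · rw [Fin.strictMono_iff_lt_succ]
      intro a
      fin_cases a
      · show (⟨i, _⟩ : Fin n) < ⟨i + 1, _⟩
        simp [Fin.lt_def]
      · show (⟨i + 1, _⟩ : Fin n) < ⟨j, _⟩
        simpa [Fin.lt_def] using h1
      · show (⟨j, _⟩ : Fin n) < ⟨k, _⟩
        simpa [Fin.lt_def] using h2
    · rfl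
    · have e : ∀ a : Fin 4, ![vf s i, vf s (i + 1), vf s j, vf s k] a
          = (s ((![⟨i, by omega⟩, ⟨i + 1, by omega⟩, ⟨j, by omega⟩, ⟨k, h3⟩] :
            Fin 4 → Fin n) a) : ℕ) := by
        have q0 : i < n := by omega
        have q1 : i + 1 < n := by omega
        have q2 : j < n := by omega
        intro a
        fin_cases a <;> simp [vf, q0, q1, q2, h3]
      intro a b
      rw [← h4 a b, e a, e b]
      rfl

lemma av_1243 {n : ℕ} (s : Equiv.Perm (Fin n)) :
    ¬ Contains ![1, 2, 4, 3] s ↔ TopA n (vf s) (good1 n (vf s)) := by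
  rw [contains_iff]
  constructor
  · intro h i hi hw j k h1 h2 h3 h4
    refine h ⟨i, j, k, h1, h2, h3, ?_⟩
    intro a b
    fin_cases a <;> fin_cases b <;> simp <;> omega
  · rintro h ⟨i, j, k, h1, h2, h3, h4⟩
    have e01 := (h4 0 1).mpr (by decide)
    have e13 := (h4 1 3).mpr (by decide)
    have e32 := (h4 3 2).mpr (by decide)
    simp at e01 e13 e32
    exact h i (by omega) e01 j k h1 h2 h3 ⟨e13, e32⟩

lemma av_2143 {n : ℕ} (s : Equiv.Perm (Fin n)) :
    ¬ Contains ![2, 1, 4, 3] s ↔ TopB n (vf s) (good1 n (vf s)) := by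
  rw [contains_iff]
  constructor
  · intro h i hi hw j k h1 h2 h3 h4
    have h5 : i + 1 < j := by
      rcases Nat.lt_or_ge (i + 1) j with h5 | h5
      · exact h5
      · have : j = i + 1 := by omega
        subst this
        omega
    refine h ⟨i, j, k, h5, h2, h3, ?_⟩
    intro a b
    fin_cases a <;> fin_cases b <;> simp <;> omega
  · rintro h ⟨i, j, k, h1, h2, h3, h4⟩
    have e10 := (h4 1 0).mpr (by decide)
    have e03 := (h4 0 3).mpr (by decide)
    have e32 := (h4 3 2).mpr (by decide)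
    simp at e10 e03 e32
    exact h i (by omega) e10 j k (by omega) h2 h3 ⟨e03, e32⟩

lemma av_1342 {n : ℕ} (s : Equiv.Perm (Fin n)) :
    ¬ Contains ![1, 3, 4, 2] s ↔ A2 n (vf s) := by
  rw [contains_iff]
  constructor
  · intro h i j k h1 h2 h3 h4
    refine h ⟨i, j, k, h1, h2, h3, ?_⟩
    intro a b
    fin_cases a <;> fin_cases b <;> simp <;> omega
  · rintro h ⟨i, j, k, h1, h2, h3, h4⟩
    have e01 := (h4 0 1).mpr (by decide)
    have e12 := (h4 1 2).mpr (by decide)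
    have e03 := (h4 0 3).mpr (by decide)
    have e31 := (h4 3 1).mpr (by decide)
    simp at e01 e12 e03 e31
    exact h i j k h1 h2 h3 ⟨e01, e12, e03, e31⟩

lemma av_3142 {n : ℕ} (s : Equiv.Perm (Fin n)) :
    ¬ Contains ![3, 1, 4, 2] s ↔ B2 n (vf s) := by
  rw [contains_iff]
  constructor
  · intro h i j k h1 h2 h3 h4
    refine h ⟨i, j, k, h1, h2, h3, ?_⟩
    intro a b
    fin_cases a <;> fin_cases b <;> simp <;> omega
  · rintro h ⟨i, j, k, h1, h2, h3, h4⟩
    have e10 := (h4 1 0).mpr (by decide)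
    have e02 := (h4 0 2).mpr (by decide)
    have e13 := (h4 1 3).mpr (by decide)
    have e30 := (h4 3 0).mpr (by decide)
    simp at e10 e02 e13 e30
    exact h i j k h1 h2 h3 ⟨e10, e02, e13, e30⟩

open Classical in
lemma F_zero (p : Fin 4 → ℕ) : F p 0 = 1 := by
  unfold F
  have h : ∀ s : Equiv.Perm (Fin 0), ¬ Contains p s := by
    rintro s ⟨i, _⟩
    exact (i 0).elim0
  rw [Finset.filter_true_of_mem (fun s _ => h s), Fintype.sum_unique]
  simp [des]

open Classical in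
lemma F_A (p : Fin 4 → ℕ) (n : ℕ) (C : (ℕ → ℕ) → Prop)
    (h : ∀ s : Equiv.Perm (Fin n), ¬ Contains p s ↔ C (vf s)) :
    F p n = ∑ s : Equiv.Perm (Fin n),
      (if C (vf s) then (Polynomial.X : Polynomial ℤ) ^ dd n (vf s) else 0) := by
  unfold F
  rw [Finset.sum_filter]
  refine Finset.sum_congr rfl (fun s _ => ?_)
  rw [des_eq]
  exact if_congr (h s) rfl rfl

open Classical in
lemma F_B (p p' : Fin 4 → ℕ) (hp : ∀ a b, p a < p b ↔ p' b < p' a) (n : ℕ)
    (C : (ℕ → ℕ) → Prop)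
    (h : ∀ s : Equiv.Perm (Fin n), ¬ Contains p' s ↔ C (vf s)) :
    F p n = ∑ s : Equiv.Perm (Fin n),
      (if C (vf s) then (Polynomial.X : Polynomial ℤ) ^ aa n (vf s) else 0) := by
  unfold F
  rw [Finset.sum_filter]
  have hb : Function.Bijective (cmp (n := n)) := by
    have hinv : Function.Involutive (cmp (n := n)) := by
      intro s
      ext i
      simp [cmp_apply]
    exact hinv.bijective
  rw [← hb.sum_comp]
  refine Finset.sum_congr rfl (fun s _ => ?_)
  rw [des_cmp]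
  refine if_congr ?_ rfl rfl
  rw [contains_cmp hp, h s]

theorem result :
    (∀ n : ℕ, F ![1, 2, 4, 3] n = F ![3, 4, 1, 2] n) ∧
    (∀ n : ℕ, F ![1, 3, 4, 2] n = F ![2, 4, 1, 3] n) := by
  constructor
  · intro n
    rcases Nat.eq_zero_or_pos n with rfl | hn
    · rw [F_zero, F_zero]
    obtain ⟨m, rfl⟩ : ∃ m, n = m + 1 := ⟨n - 1, by omega⟩
    rw [F_A _ _ (fun w => TopA (m + 1) w (good1 (m + 1) w)) (fun s => av_1243 s),
      F_B ![3, 4, 1, 2] ![2, 1, 4, 3] (by decide) _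
        (fun w => TopB (m + 1) w (good1 (m + 1) w)) (fun s => av_2143 s)]
    exact mul_left_cancel₀ Polynomial.X_ne_zero (main1 (Polynomial.X : Polynomial ℤ) m)
  · intro n
    rcases Nat.eq_zero_or_pos n with rfl | hn
    · rw [F_zero, F_zero]
    obtain ⟨m, rfl⟩ : ∃ m, n = m + 1 := ⟨n - 1, by omega⟩
    rw [F_A _ _ (A2 (m + 1)) (fun s => av_1342 s),
      F_B ![2, 4, 1, 3] ![3, 1, 4, 2] (by decide) _ (B2 (m + 1)) (fun s => av_3142 s)]
    exact mul_left_cancel₀ Polynomial.X_ne_zero (main2 (Polynomial.X : Polynomial ℤ) m)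

end Pool.Agent.Results.MP_668c10_co.DesWilf
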