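import Pool.Agent.R209.DWPat

/-!
# The patterns `1243` and `3412` with adjacent first two entries are des-Wilf equivalent
-/

namespace Pool.Agent.Results.MP_668c10_co.DesWilf1243

open R209.DW

theorem result (n : ℕ) : F ![1, 2, 4, 3] n = F ![3, 4, 1, 2] n := equiv_1243_3412 n

end Pool.Agent.Results.MP_668c10_co.DesWilf1243
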