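import Pool.Agent.R209.DWPat

/-!
# The patterns `1342` and `2413` with adjacent first two entries are des-Wilf equivalent
-/

namespace Pool.Agent.Results.MP_668c10_co.DesWilf1342

open R209.DW

theorem result (n : ℕ) : F ![1, 3, 4, 2] n = F ![2, 4, 1, 3] n := equiv_1342_2413 n

end Pool.Agent.Results.MP_668c10_co.DesWilf1342
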